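import Mathlib

/-!
# MP_a2bf4b_an: reflexivity of bisymmetric operations on a proper subinterval (Q1, answer YES)

On `I = ℝ` the operation `F(x,y) = ⌊x⌋ + ⌊y⌋ + ({x} + {y})/2` is bisymmetric, symmetric and
partially strictly increasing, it is reflexive exactly on `[0,1)`, so it is reflexive on the proper
subinterval `[0,1)` without being reflexive on `I`.  The same formula works on `I = [0,∞)`.
-/

namespace Pool.Agent.Results.MP_a2bf4b_an.FloorMean

/-- `F` is bisymmetric: `F(F(x,y),F(u,v)) = F(F(x,u),F(y,v))`. -/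
def Bisymmetric {I : Set ℝ} (F : I → I → I) : Prop :=
  ∀ x y u v : I, F (F x y) (F u v) = F (F x u) (F y v)

/-- `F` is symmetric. -/
def Symm {I : Set ℝ} (F : I → I → I) : Prop :=
  ∀ x y : I, F x y = F y x

/-- `F` is strictly increasing in each variable separately. -/
def PartiallyStrictlyIncreasing {I : Set ℝ} (F : I → I → I) : Prop :=
  (∀ y : I, StrictMono (fun x : I => F x y)) ∧ (∀ x : I, StrictMono (fun y : I => F x y))

/-- A nondegenerate interval of the real line: an order-connected set with at least two points. -/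
def NondegInterval (I : Set ℝ) : Prop := I.OrdConnected ∧ I.Nontrivial

/-- The operation used. -/
noncomputable def op (x y : ℝ) : ℝ := (⌊x⌋ : ℝ) + (⌊y⌋ : ℝ) + (Int.fract x + Int.fract y) / 2

lemma op_floor (x y : ℝ) : ⌊op x y⌋ = ⌊x⌋ + ⌊y⌋ := by
  rw [Int.floor_eq_iff]
  have h1 := Int.fract_nonneg x
  have h2 := Int.fract_nonneg y
  have h3 := Int.fract_lt_one x
  have h4 := Int.fract_lt_one y
  unfold op
  push_cast
  constructor <;> linarith

lemma op_fract (x y : ℝ) : Int.fract (op x y) = (Int.fract x + Int.fract y) / 2 := by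
  have h := op_floor x y
  unfold Int.fract at *
  rw [h]
  unfold op
  push_cast
  unfold Int.fract
  ring

lemma op_bisymm (x y u v : ℝ) : op (op x y) (op u v) = op (op x u) (op y v) := by
  have h : ∀ a b : ℝ, op a b = (⌊a⌋ : ℝ) + (⌊b⌋ : ℝ) + (Int.fract a + Int.fract b) / 2 :=
    fun a b => rfl
  rw [h (op x y), h (op x u)]
  simp only [op_floor, op_fract]
  push_cast
  ring

lemma op_comm (x y : ℝ) : op x y = op y x := by
  unfold op; ring

lemma op_strictMono (y : ℝ) : StrictMono (fun x => op x y) := by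
  intro a b hab
  have ha0 := Int.fract_nonneg a
  have ha := Int.fract_lt_one a
  have hb := Int.fract_nonneg b
  have ea := Int.floor_add_fract a
  have eb := Int.floor_add_fract b
  have hle : ⌊a⌋ ≤ ⌊b⌋ := Int.floor_le_floor hab.le
  show op a y < op b y
  unfold op
  rcases hle.lt_or_eq with h | h
  · have h1 : (⌊a⌋ : ℝ) + 1 ≤ (⌊b⌋ : ℝ) := by exact_mod_cast h
    linarith
  · have h1 : (⌊a⌋ : ℝ) = (⌊b⌋ : ℝ) := by exact_mod_cast h
    linarith

lemma op_self_iff (x : ℝ) : op x x = x ↔ x ∈ Set.Ico (0 : ℝ) 1 := by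
  have e := Int.floor_add_fract x
  unfold op
  constructor
  · intro h
    have h1 : (⌊x⌋ : ℝ) = 0 := by linarith
    have h2 : ⌊x⌋ = 0 := by exact_mod_cast h1
    have h3 := Int.floor_eq_zero_iff.mp h2
    exact h3
  · intro h
    have h2 : ⌊x⌋ = 0 := Int.floor_eq_zero_iff.mpr h
    have h1 : (⌊x⌋ : ℝ) = 0 := by exact_mod_cast h2
    linarith

lemma op_nonneg {x y : ℝ} (hx : 0 ≤ x) (hy : 0 ≤ y) : 0 ≤ op x y := by
  have h1 : (0 : ℝ) ≤ (⌊x⌋ : ℝ) := by exact_mod_cast Int.floor_nonneg.mpr hx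
  have h2 : (0 : ℝ) ≤ (⌊y⌋ : ℝ) := by exact_mod_cast Int.floor_nonneg.mpr hy
  have h3 := Int.fract_nonneg x
  have h4 := Int.fract_nonneg y
  unfold op
  linarith

/-- The construction works on every nonempty-interval `I ⊇ [0,1]` closed under `op`. -/
lemma works (I : Set ℝ) (hI : I.OrdConnected) (h01 : Set.Icc (0 : ℝ) 1 ⊆ I)
    (hcl : ∀ x ∈ I, ∀ y ∈ I, op x y ∈ I) :
    NondegInterval I ∧
    ∃ F : I → I → I, Bisymmetric F ∧ Symm F ∧ PartiallyStrictlyIncreasing F ∧
      ∃ J : Set ℝ, NondegInterval J ∧ J ⊂ I ∧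
        (∀ x : I, (x : ℝ) ∈ J ↔ F x x = x) := by
  have h0 : (0 : ℝ) ∈ I := h01 ⟨le_refl _, zero_le_one⟩
  have h1 : (1 : ℝ) ∈ I := h01 ⟨zero_le_one, le_refl _⟩
  refine ⟨⟨hI, ⟨0, h0, 1, h1, zero_ne_one⟩⟩, fun x y => ⟨op x y, hcl x x.2 y y.2⟩,
    ?_, ?_, ⟨?_, ?_⟩, Set.Ico 0 1, ⟨Set.ordConnected_Ico, ?_⟩, ?_, ?_⟩
  · intro x y u v
    exact Subtype.ext (op_bisymm x y u v)
  · intro x y
    exact Subtype.ext (op_comm x y)
  · intro y a b hab
    exact op_strictMono y hab
  · intro x a b hab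
    show op x a < op x b
    rw [op_comm x a, op_comm x b]
    exact op_strictMono x hab
  · exact ⟨0, ⟨le_refl _, zero_lt_one⟩, 1 / 2, ⟨by norm_num, by norm_num⟩, by norm_num⟩
  · constructor
    · exact (Set.Ico_subset_Icc_self).trans h01
    · intro h
      exact absurd (h h1).2 (lt_irrefl _)
  · intro x
    rw [Subtype.ext_iff]
    exact (op_self_iff x).symm

/-- **Q1 of MP_a2bf4b_an, answer YES.**  There are a nondegenerate interval `I` (in fact both
`I = ℝ` and `I = [0,∞)` work) and a bisymmetric, symmetric, partially strictly increasing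
`F : I² → I` and a proper subinterval `J` of `I` with more than one point such that `F` is
reflexive at every point of `J` and at no other point of `I`; in particular
`F(x₀,x₀) ≠ x₀` for some `x₀ ∈ I`. -/
theorem result :
    ∀ I : Set ℝ, (I = Set.univ ∨ I = Set.Ici 0) →
    NondegInterval I ∧
    ∃ F : I → I → I, Bisymmetric F ∧ Symm F ∧ PartiallyStrictlyIncreasing F ∧
      ∃ J : Set ℝ, NondegInterval J ∧ J ⊂ I ∧
        (∀ x : I, (x : ℝ) ∈ J → F x x = x) ∧
        (∀ x : I, (x : ℝ) ∉ J → F x x ≠ x) ∧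
        (∃ x₀ : I, F x₀ x₀ ≠ x₀) := by
  intro I hI
  have hw : NondegInterval I ∧
    ∃ F : I → I → I, Bisymmetric F ∧ Symm F ∧ PartiallyStrictlyIncreasing F ∧
      ∃ J : Set ℝ, NondegInterval J ∧ J ⊂ I ∧
        (∀ x : I, (x : ℝ) ∈ J ↔ F x x = x) := by
    rcases hI with rfl | rfl
    · exact works _ Set.ordConnected_univ (Set.subset_univ _) (fun _ _ _ _ => Set.mem_univ _)
    · exact works _ Set.ordConnected_Ici (fun x hx => hx.1)
        (fun x hx y hy => op_nonneg hx hy)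
  obtain ⟨h1, F, h2, h3, h4, J, h5, h6, h7⟩ := hw
  refine ⟨h1, F, h2, h3, h4, J, h5, h6, fun x hx => (h7 x).1 hx, fun x hx h => hx ((h7 x).2 h), ?_⟩
  obtain ⟨z, hz, hzJ⟩ := Set.exists_of_ssubset h6
  exact ⟨⟨z, hz⟩, fun h => hzJ ((h7 ⟨z, hz⟩).2 h)⟩

end Pool.Agent.Results.MP_a2bf4b_an.FloorMean
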